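import Mathlib

/-!
# A sequentially pseudocompact Boolean group which is not selectively sequentially pseudocompact

The group is a subgroup of `(ℤ/2) ^ W`, `W = ω₁ × 2 ^ ω`, generated by elements `g α`, `α ∈ W`.
The coordinate `ξ` of `g α` is used for one of two purposes. If the first coordinate of `ξ` is less
than the one of `α`, then it makes sure that the group projects onto `(ℤ/2) ^ D` for every countable
subset `D` of `W`. Otherwise it makes sure that no injective sequence of elements of the group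
converges.
-/

open Set Filter Topology Cardinal

namespace Pool.Agent.Results.MP_3c9c51_gt.BooleanGroup

/-- `X` is sequentially pseudocompact: for every sequence of non-empty open sets `U n` there are an
infinite set `J` and a point `x` such that every open neighbourhood of `x` meets all but finitely
many of the sets `U n`, `n ∈ J`. -/
def SeqPseudocompact (X : Type) [TopologicalSpace X] : Prop :=
  ∀ U : ℕ → Set X, (∀ n, IsOpen (U n)) → (∀ n, (U n).Nonempty) →
    ∃ (J : Set ℕ) (x : X), J.Infinite ∧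
      ∀ V : Set X, IsOpen V → x ∈ V → {n | n ∈ J ∧ V ∩ U n = ∅}.Finite

/-- `X` is selectively sequentially pseudocompact: for every sequence of non-empty open sets `U n`
there are points `x n ∈ U n` such that the sequence `x` has a convergent subsequence. -/
def SelSeqPseudocompact (X : Type) [TopologicalSpace X] : Prop :=
  ∀ U : ℕ → Set X, (∀ n, IsOpen (U n)) → (∀ n, (U n).Nonempty) →
    ∃ x : ℕ → X, (∀ n, x n ∈ U n) ∧
      ∃ (φ : ℕ → ℕ) (y : X), StrictMono φ ∧ Tendsto (fun k => x (φ k)) atTop (𝓝 y)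

noncomputable section

/-- The first uncountable ordinal as a type. -/
abbrev Om : Type := (ℵ₁ : Cardinal.{0}).ord.ToType

abbrev W : Type := Om × (ℕ → Bool)

theorem om_countable (i : Om) : (Iio i).Countable := by
  rw [← Cardinal.le_aleph0_iff_set_countable, ← Cardinal.lt_aleph_one_iff]
  have h := Cardinal.mk_Iio_lt i (by rw [Cardinal.mk_ord_toType, Ordinal.type_toType])
  rwa [Cardinal.mk_ord_toType] at h

instance om_uncountable : Uncountable Om := by
  rw [← Cardinal.aleph0_lt_mk_iff, Cardinal.mk_ord_toType]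
  exact Cardinal.aleph0_lt_aleph_one

theorem om_bound (D : Set Om) (hD : D.Countable) : ∃ i : Om, ∀ d ∈ D, d < i := by
  by_contra hcon
  push Not at hcon
  have h1 : (univ : Set Om) ⊆ ⋃ d ∈ D, (insert d (Iio d)) := by
    intro i _
    obtain ⟨d, hd, hid⟩ := hcon i
    rw [mem_iUnion₂]
    refine ⟨d, hd, ?_⟩
    rcases hid.eq_or_lt with h | h
    · exact Or.inl h
    · exact Or.inr h
  have h2 : (⋃ d ∈ D, (insert d (Iio d)) : Set Om).Countable :=
    hD.biUnion (fun d _ => (om_countable d).insert d)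
  exact not_countable_univ (h2.mono h1)

theorem w_bound (D : Set W) (hD : D.Countable) : ∃ i : Om, ∀ d ∈ D, d.1 < i := by
  obtain ⟨i, hi⟩ := om_bound (Prod.fst '' D) (hD.image _)
  exact ⟨i, fun d hd => hi _ (mem_image_of_mem _ hd)⟩

theorem mk_bool : #(ℕ → Bool) = 𝔠 := by simp

theorem mk_W : #W = 𝔠 := by
  rw [Cardinal.mk_prod, Cardinal.mk_ord_toType, mk_bool]
  simp only [Cardinal.lift_id]
  exact Cardinal.mul_eq_right Cardinal.aleph0_le_continuum Cardinal.aleph_one_le_continuum
    (Cardinal.aleph_pos 1).ne'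

theorem exists_sigma : ∃ σ : (ℕ → Bool) → (ℕ → W), Function.Surjective σ := by
  have h : #(ℕ → W) ≤ #(ℕ → Bool) := by
    rw [mk_bool, ← Cardinal.power_def, mk_W, Cardinal.mk_nat, Cardinal.continuum_power_aleph0]
  obtain ⟨f⟩ := h
  exact ⟨Function.invFun f, Function.invFun_surjective f.injective⟩

theorem exists_tau : ∃ τ : (ℕ → Bool) → (ℕ → Finset W), Function.Surjective τ := by
  have h : #(ℕ → Finset W) ≤ #(ℕ → Bool) := by
    have : Infinite W := by
      rw [Cardinal.infinite_iff, mk_W]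
      exact Cardinal.aleph0_le_continuum
    rw [mk_bool, ← Cardinal.power_def, Cardinal.mk_finset_of_infinite, mk_W, Cardinal.mk_nat,
      Cardinal.continuum_power_aleph0]
  obtain ⟨f⟩ := h
  exact ⟨Function.invFun f, Function.invFun_surjective f.injective⟩

def sigma : (ℕ → Bool) → (ℕ → W) := exists_sigma.choose
theorem sigma_surj : Function.Surjective sigma := exists_sigma.choose_spec

def tau : (ℕ → Bool) → (ℕ → Finset W) := exists_tau.choose
theorem tau_surj : Function.Surjective tau := exists_tau.choose_spec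

instance : Infinite W := by
  rw [Cardinal.infinite_iff, mk_W]
  exact Cardinal.aleph0_le_continuum

theorem zmod2 (v : ZMod 2) : v = 0 ∨ v = 1 := by
  revert v; decide

/-- A functional with both values infinitely often. -/
theorem exists_functional (F : ℕ → Finset W) (hF : Function.Injective F) :
    ∃ c : W → ZMod 2, ∀ v : ZMod 2, {n | ∑ a ∈ F n, c a = v}.Infinite := by
  classical
  let e : Finset W → (W →₀ ZMod 2) := fun A => ∑ a ∈ A, Finsupp.single a 1
  have hval : ∀ A w, e A w = if w ∈ A then 1 else 0 := by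
    intro A w
    simp only [e, Finsupp.finsetSum_apply, Finsupp.single_apply]
    rw [Finset.sum_ite_eq' A w (fun _ => (1 : ZMod 2))]
  have he : Function.Injective e := by
    intro A B hAB
    ext w
    have := congrArg (fun f : W →₀ ZMod 2 => f w) hAB
    simp only [hval] at this
    by_cases h1 : w ∈ A <;> by_cases h2 : w ∈ B <;> simp_all
  let S : Set (W →₀ ZMod 2) := range (fun n => e (F n))
  have hS : S.Infinite := infinite_range_of_injective (he.comp hF)
  obtain ⟨b, hbS, hspan, hli⟩ := exists_linearIndependent (ZMod 2) S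
  have hb : b.Infinite := by
    intro hfin
    have hfd : FiniteDimensional (ZMod 2) (Submodule.span (ZMod 2) b) :=
      FiniteDimensional.span_of_finite _ hfin
    have hfinite : Finite (Submodule.span (ZMod 2) b) := Module.finite_of_finite (ZMod 2)
    apply hS
    have h1 : (Submodule.span (ZMod 2) b : Set (W →₀ ZMod 2)).Finite := hfinite
    apply h1.subset
    rw [hspan]
    exact Submodule.subset_span
  -- split `b`
  obtain ⟨b₁, hb₁, hi1, hi2⟩ : ∃ b₁ ⊆ b, b₁.Infinite ∧ (b \ b₁).Infinite := by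
    have : Infinite b := hb.to_subtype
    let f := Infinite.natEmbedding b
    refine ⟨range (fun k => (f (2 * k) : W →₀ ZMod 2)), ?_, ?_, ?_⟩
    · rintro _ ⟨k, rfl⟩
      exact (f (2 * k)).2
    · apply infinite_range_of_injective
      intro k l hkl
      have := f.injective (Subtype.ext hkl)
      omega
    · have h1 : range (fun k => (f (2 * k + 1) : W →₀ ZMod 2)) ⊆
          b \ range (fun k => (f (2 * k) : W →₀ ZMod 2)) := by
        rintro _ ⟨k, rfl⟩
        refine ⟨(f (2 * k + 1)).2, ?_⟩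
        rintro ⟨l, hl⟩
        have := f.injective (Subtype.ext hl)
        omega
      refine Set.Infinite.mono h1 ?_
      apply infinite_range_of_injective
      intro k l hkl
      have := f.injective (Subtype.ext hkl)
      omega
  let B := Module.Basis.extend hli
  let φ : (W →₀ ZMod 2) →ₗ[ZMod 2] ZMod 2 :=
    B.constr (ZMod 2) (fun i => if (i : W →₀ ZMod 2) ∈ b₁ then (1 : ZMod 2) else 0)
  have hφ : ∀ x ∈ b, φ x = if x ∈ b₁ then (1 : ZMod 2) else 0 := by
    intro x hx
    have hx' : x ∈ LinearIndepOn.extend (show LinearIndepOn (ZMod 2) id b from hli)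
        (subset_univ b) := LinearIndepOn.subset_extend _ _ hx
    have h1 : B ⟨x, hx'⟩ = x := Module.Basis.extend_apply_self hli ⟨x, hx'⟩
    calc φ x = φ (B ⟨x, hx'⟩) := by rw [h1]
      _ = _ := by simp only [φ, Module.Basis.constr_basis]
  refine ⟨fun a => φ (Finsupp.single a 1), ?_⟩
  have hsum : ∀ n, ∑ a ∈ F n, φ (Finsupp.single a 1) = φ (e (F n)) := by
    intro n
    simp only [e, map_sum]
  have hpre : ∀ T : Set (W →₀ ZMod 2), T ⊆ b → T.Infinite →
      {n | e (F n) ∈ T}.Infinite := by
    intro T hT hinf hfin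
    apply hinf
    refine (hfin.image (fun n => e (F n))).subset ?_
    intro x hx
    obtain ⟨n, hn⟩ := hbS (hT hx)
    refine ⟨n, ?_, hn⟩
    show e (F n) ∈ T
    have hn' : e (F n) = x := hn
    rw [hn']
    exact hx
  intro v
  rcases zmod2 v with rfl | rfl
  · refine (hpre (b \ b₁) sdiff_subset hi2).mono ?_
    intro n hn
    show ∑ a ∈ F n, φ (Finsupp.single a 1) = 0
    rw [hsum, hφ _ hn.1, if_neg hn.2]
  · refine (hpre b₁ hb₁ hi1).mono ?_
    intro n hn
    show ∑ a ∈ F n, φ (Finsupp.single a 1) = 1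
    have hn' : e (F n) ∈ b₁ := hn
    rw [hsum, hφ _ (hb₁ hn), if_pos hn']

open Classical in
/-- The functional for the coordinate `ξ`. -/
def cf (ξ : W) : W → ZMod 2 :=
  if h : Function.Injective (tau ξ.2) then (exists_functional (tau ξ.2) h).choose else 0

theorem cf_spec (ξ : W) (h : Function.Injective (tau ξ.2)) (v : ZMod 2) :
    {n | ∑ a ∈ tau ξ.2 n, cf ξ a = v}.Infinite := by
  rw [cf, dif_pos h]
  exact (exists_functional (tau ξ.2) h).choose_spec v

open Classical in
/-- The generators. -/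
def g (α : W) : W → ZMod 2 := fun ξ =>
  if ξ.1 < α.1 then (if ∃ n, sigma α.2 n = ξ then 1 else 0) else cf ξ α

/-- The group. -/
def G : Submodule (ZMod 2) (W → ZMod 2) := Submodule.span (ZMod 2) (range g)

theorem proj (D : Set W) (hD : D.Countable) (p : W → ZMod 2) :
    ∃ x : G, ∀ ξ ∈ D, (x : W → ZMod 2) ξ = p ξ := by
  classical
  obtain ⟨i, hi⟩ := w_bound D hD
  obtain ⟨e, he⟩ : ∃ e : ℕ → W, ∀ ξ ∈ D, ((∃ n, e n = ξ) ↔ p ξ = 1) := by
    by_cases hne : ({ξ | ξ ∈ D ∧ p ξ = 1} : Set W).Nonempty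
    · obtain ⟨e, he⟩ := (hD.mono (fun ξ hξ => hξ.1 :
        ({ξ | ξ ∈ D ∧ p ξ = 1} : Set W) ⊆ D)).exists_eq_range hne
      refine ⟨e, fun ξ hξ => ?_⟩
      constructor
      · rintro ⟨n, rfl⟩
        have : e n ∈ ({ξ | ξ ∈ D ∧ p ξ = 1} : Set W) := by rw [he]; exact mem_range_self n
        exact this.2
      · intro h
        have : ξ ∈ ({ξ | ξ ∈ D ∧ p ξ = 1} : Set W) := ⟨hξ, h⟩
        rw [he] at this
        exact this
    · refine ⟨fun _ => (i, fun _ => false), fun ξ hξ => ?_⟩
      constructor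
      · rintro ⟨n, rfl⟩
        exact absurd (hi _ hξ) (lt_irrefl _)
      · intro h
        exact absurd ⟨ξ, hξ, h⟩ hne
  obtain ⟨r, hr⟩ := sigma_surj e
  refine ⟨⟨g (i, r), Submodule.subset_span (mem_range_self _)⟩, fun ξ hξ => ?_⟩
  show g (i, r) ξ = p ξ
  rw [g, if_pos (hi ξ hξ), hr]
  by_cases h : ∃ n, e n = ξ
  · rw [if_pos h, ((he ξ hξ).1 h)]
  · rw [if_neg h]
    rcases zmod2 (p ξ) with h' | h'
    · exact h'.symm
    · exact absurd ((he ξ hξ).2 h') h

theorem rep (x : G) : ∃ F : Finset W, ∀ ξ, (x : W → ZMod 2) ξ = ∑ a ∈ F, g a ξ := by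
  obtain ⟨c, hc⟩ := Finsupp.mem_span_range_iff_exists_finsupp.1 x.2
  refine ⟨c.support, fun ξ => ?_⟩
  rw [← hc, Finsupp.sum, Finset.sum_apply]
  refine Finset.sum_congr rfl (fun a ha => ?_)
  rcases zmod2 (c a) with h | h
  · exact absurd h (Finsupp.mem_support_iff.1 ha)
  · rw [h, one_smul]

theorem noconv (x : ℕ → G) (y : G) (hx : Function.Injective x) : ¬ Tendsto x atTop (𝓝 y) := by
  intro hlim
  choose F hF using fun n => rep (x n)
  have hFinj : Function.Injective F := by
    intro n m hnm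
    apply hx
    apply Subtype.ext
    funext ξ
    rw [hF n ξ, hF m ξ, hnm]
  have hcount : (⋃ n, (F n : Set W)).Countable :=
    countable_iUnion (fun n => (F n).countable_toSet)
  obtain ⟨i, hi⟩ := w_bound _ hcount
  obtain ⟨r, hr⟩ := tau_surj F
  have hco : ∀ n, (x n : W → ZMod 2) (i, r) = ∑ a ∈ tau r n, cf (i, r) a := by
    intro n
    rw [hF n, hr]
    refine Finset.sum_congr rfl (fun a ha => ?_)
    have h1 : a.1 < i := hi a (mem_iUnion.2 ⟨n, ha⟩)
    show g a (i, r) = _
    rw [g, if_neg (not_lt.2 h1.le)]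
  have hinf := cf_spec (i, r) (by show Function.Injective (tau r); rw [hr]; exact hFinj)
    ((y : W → ZMod 2) (i, r) + 1)
  have hcont : Continuous fun z : G => (z : W → ZMod 2) (i, r) :=
    (continuous_apply (i, r)).comp continuous_subtype_val
  have hev := (hcont.tendsto y).comp hlim
  have hev2 : ∀ᶠ n in atTop, (x n : W → ZMod 2) (i, r) = (y : W → ZMod 2) (i, r) := by
    have h3 : ∀ᶠ n in atTop, (x n : W → ZMod 2) (i, r) ∈
        ({(y : W → ZMod 2) (i, r)} : Set (ZMod 2)) :=
      hev.eventually ((isOpen_discrete ({(y : W → ZMod 2) (i, r)} : Set (ZMod 2))).mem_nhds rfl)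
    exact h3
  obtain ⟨N, hN⟩ := eventually_atTop.1 hev2
  obtain ⟨n, hn, hnN⟩ := hinf.exists_gt N
  have h1 := hN n hnN.le
  rw [hco n] at h1
  have h2 : ∑ a ∈ tau r n, cf (i, r) a = (y : W → ZMod 2) (i, r) + 1 := hn
  rw [h2] at h1
  have h3 : (1 : ZMod 2) = 0 := by
    simp at h1
  exact absurd h3 (by decide)

theorem not_ssp : ¬ SelSeqPseudocompact G := by
  intro hssp
  let ξ := Infinite.natEmbedding W
  let U : ℕ → Set G := fun n =>
    {z | (∀ k, k < n → (z : W → ZMod 2) (ξ k) = 0) ∧ (z : W → ZMod 2) (ξ n) = 1}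
  have hcont : ∀ w, Continuous fun z : G => (z : W → ZMod 2) w := fun w =>
    (continuous_apply w).comp continuous_subtype_val
  have hopen : ∀ w v, IsOpen {z : G | (z : W → ZMod 2) w = v} := fun w v =>
    (isOpen_discrete ({v} : Set (ZMod 2))).preimage (hcont w)
  have hU : ∀ n, IsOpen (U n) := by
    intro n
    have : U n = (⋂ k ∈ Iio n, {z : G | (z : W → ZMod 2) (ξ k) = 0}) ∩
        {z : G | (z : W → ZMod 2) (ξ n) = 1} := by
      ext z
      simp [U]
    rw [this]
    exact ((finite_Iio n).isOpen_biInter (fun k _ => hopen _ _)).inter (hopen _ _)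
  have hne : ∀ n, (U n).Nonempty := by
    intro n
    classical
    obtain ⟨x, hx⟩ := proj (range ξ) (countable_range ξ) (fun w => if w = ξ n then 1 else 0)
    refine ⟨x, ?_, ?_⟩
    · intro k hk
      rw [hx _ (mem_range_self k), if_neg]
      intro h
      exact hk.ne (ξ.injective h)
    · rw [hx _ (mem_range_self n), if_pos rfl]
  have hdisj : ∀ n m, n < m → ∀ z, z ∈ U n → z ∈ U m → False := by
    intro n m hnm z h1 h2
    have := h1.2.symm.trans (h2.1 n hnm)
    exact absurd this (by decide)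
  obtain ⟨x, hx, φ, y, hφ, hlim⟩ := hssp U hU hne
  refine noconv (fun k => x (φ k)) y ?_ hlim
  intro k l hkl
  by_contra hne'
  have hkl' : x (φ k) = x (φ l) := hkl
  rcases lt_or_gt_of_ne hne' with h | h
  · exact hdisj _ _ (hφ h) _ (hx (φ k)) (by rw [hkl']; exact hx (φ l))
  · exact hdisj _ _ (hφ h) _ (hx (φ l)) (by rw [← hkl']; exact hx (φ k))

theorem exists_basic (U : Set G) (hU : IsOpen U) (x : G) (hx : x ∈ U) :
    ∃ E : Finset W, ∀ z : G, (∀ ξ ∈ E, (z : W → ZMod 2) ξ = (x : W → ZMod 2) ξ) → z ∈ U := by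
  obtain ⟨V, hV, rfl⟩ := isOpen_induced_iff.1 hU
  have hxV : (x : W → ZMod 2) ∈ V := hx
  obtain ⟨E, u, hu, hsub⟩ := isOpen_pi_iff.1 hV _ hxV
  refine ⟨E, fun z hz => ?_⟩
  apply hsub
  intro ξ hξ
  rw [hz ξ hξ]
  exact (hu ξ hξ).2

theorem seqpc : SeqPseudocompact G := by
  classical
  intro U hU hne
  choose y hy using hne
  choose E hE using fun n => exists_basic (U n) (hU n) (y n) (hy n)
  let D : Set W := ⋃ n, (E n : Set W)
  have hD : D.Countable := countable_iUnion (fun n => (E n).countable_toSet)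
  have hDc : Countable D := hD.to_subtype
  obtain ⟨p, φ, hφ, hlim⟩ := CompactSpace.tendsto_subseq
    (fun n => fun d : D => (y n : W → ZMod 2) d)
  obtain ⟨x, hx⟩ := proj D hD (fun w => if h : w ∈ D then p ⟨w, h⟩ else 0)
  have hev : ∀ d : D, ∀ᶠ k in atTop, (y (φ k) : W → ZMod 2) d = (x : W → ZMod 2) d := by
    intro d
    have h1 := (tendsto_pi_nhds.1 hlim) d
    have h2 : (x : W → ZMod 2) d = p d := by
      rw [hx _ d.2, dif_pos d.2]
    have h3 : ∀ᶠ k in atTop, (y (φ k) : W → ZMod 2) d ∈ ({p d} : Set (ZMod 2)) :=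
      h1.eventually ((isOpen_discrete ({p d} : Set (ZMod 2))).mem_nhds rfl)
    refine h3.mono (fun k hk => ?_)
    rw [h2]
    exact hk
  refine ⟨range φ, x, infinite_range_of_injective hφ.injective, ?_⟩
  intro V hV hxV
  obtain ⟨A, hA⟩ := exists_basic V hV x hxV
  have hev2 : ∀ᶠ k in atTop, ∀ w ∈ A, w ∈ D →
      (y (φ k) : W → ZMod 2) w = (x : W → ZMod 2) w := by
    rw [Filter.eventually_all_finset]
    intro w _
    by_cases hw : w ∈ D
    · exact (hev ⟨w, hw⟩).mono (fun k hk _ => hk)
    · exact Filter.Eventually.of_forall (fun k h => absurd h hw)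
  obtain ⟨N, hN⟩ := eventually_atTop.1 hev2
  refine ((finite_Iio N).image φ).subset ?_
  rintro _ ⟨⟨k, rfl⟩, hk⟩
  refine ⟨k, ?_, rfl⟩
  by_contra hkN
  have hkN' : N ≤ k := not_lt.1 hkN
  obtain ⟨z, hz⟩ := proj ((A : Set W) ∪ (E (φ k) : Set W))
    ((A.countable_toSet).union (E (φ k)).countable_toSet)
    (fun w => if w ∈ A then (x : W → ZMod 2) w else (y (φ k) : W → ZMod 2) w)
  have hzV : z ∈ V := by
    apply hA
    intro w hw
    rw [hz w (Or.inl hw), if_pos hw]
  have hzU : z ∈ U (φ k) := by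
    apply hE
    intro w hw
    rw [hz w (Or.inr hw)]
    by_cases hwA : w ∈ A
    · rw [if_pos hwA]
      exact (hN k hkN' w hwA (mem_iUnion.2 ⟨φ k, hw⟩)).symm
    · rw [if_neg hwA]
  have : z ∈ V ∩ U (φ k) := ⟨hzV, hzU⟩
  rw [hk] at this
  exact this

end

/-- There is a Hausdorff topological group of exponent two, hence Abelian, which is sequentially
pseudocompact but not selectively sequentially pseudocompact, and in which no injective sequence
converges. -/
theorem result : ∃ (X : Type) (_ : AddCommGroup X) (_ : TopologicalSpace X),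
    IsTopologicalAddGroup X ∧ T2Space X ∧ (∀ x : X, x + x = 0) ∧
      SeqPseudocompact X ∧ ¬ SelSeqPseudocompact X ∧
      ∀ (x : ℕ → X) (y : X), Function.Injective x → ¬ Tendsto x atTop (𝓝 y) := by
  refine ⟨G, inferInstance, inferInstance, inferInstance, inferInstance, ?_, seqpc, not_ssp,
    fun x y hx => noconv x y hx⟩
  intro x
  apply Subtype.ext
  funext ξ
  show (x : W → ZMod 2) ξ + (x : W → ZMod 2) ξ = 0
  exact CharTwo.add_self_eq_zero _

end Pool.Agent.Results.MP_3c9c51_gt.BooleanGroup
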